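import Mathlib

/-! # The combinatorial obstruction on `S₄` -/

namespace Q88.Piece

open Equiv

/-- permutations of four letters -/
abbrev P4 := Equiv.Perm (Fin 4)

/-- real sign -/
def sg (π : P4) : ℝ := ((Perm.sign π : ℤ) : ℝ)

/-- the weights -/
def wt (p : Fin 4) (π : P4) : ℤ := if π p = 3 ∨ π 3 = 3 then 2 else -1

lemma wt_sum : ∀ π : P4, wt 0 π + wt 1 π + wt 2 π = if π 3 = 3 then 6 else 0 := by decide

lemma odd_count : (∑ π : P4, (if π 3 = 3 then (Perm.sign π : ℤ) else 0) *
    (if Perm.sign π = 1 then 0 else 1)) = -3 := by decide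

lemma sg_swap (π : P4) {i k : Fin 4} (h : i ≠ k) : sg (π * swap i k) = - sg π := by
  unfold sg
  rw [Perm.sign_mul, Perm.sign_swap h]
  simp

lemma pair_sum (T : P4 → ℝ) (u : P4 → ℝ) {i k j l : Fin 4} (hik : i ≠ k) (hjl : j ≠ l)
    (hu1 : ∀ π, u (π * swap i k) = u π) (hu2 : ∀ π, u (π * swap j l) = u π)
    (hrel : ∀ π, T π - T (π * swap i k) - T (π * swap j l) + T (π * swap i k * swap j l) = 0) :
    ∑ π, sg π * u π * T π = 0 := by
  have e1 : ∑ π, sg π * u π * T π = - ∑ π, sg π * u π * T (π * swap i k) := by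
    rw [← Equiv.sum_comp (Equiv.mulRight (swap i k)) (fun π => sg π * u π * T π),
      ← Finset.sum_neg_distrib]
    refine Finset.sum_congr rfl fun π _ => ?_
    rw [Equiv.coe_mulRight, sg_swap π hik, hu1]
    ring
  have e2 : ∑ π, sg π * u π * T π = - ∑ π, sg π * u π * T (π * swap j l) := by
    rw [← Equiv.sum_comp (Equiv.mulRight (swap j l)) (fun π => sg π * u π * T π),
      ← Finset.sum_neg_distrib]
    refine Finset.sum_congr rfl fun π _ => ?_
    rw [Equiv.coe_mulRight, sg_swap π hjl, hu2]
    ring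
  have e3 : ∑ π, sg π * u π * T π = ∑ π, sg π * u π * T (π * swap i k * swap j l) := by
    rw [e2, ← Equiv.sum_comp (Equiv.mulRight (swap i k))
      (fun π => sg π * u π * T (π * swap j l)), ← Finset.sum_neg_distrib]
    refine Finset.sum_congr rfl fun π _ => ?_
    rw [Equiv.coe_mulRight, sg_swap π hik, hu1]
    ring
  have e4 : ∑ π, sg π * u π * (T π - T (π * swap i k) - T (π * swap j l) +
      T (π * swap i k * swap j l)) = 0 :=
    Finset.sum_eq_zero fun π _ => by rw [hrel π, mul_zero]
  simp only [mul_add, mul_sub, Finset.sum_add_distrib, Finset.sum_sub_distrib] at e4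
  linarith

lemma wt_swap1 (p : Fin 4) (π : P4) : wt p (π * swap p 3) = wt p π := by
  unfold wt
  simp only [Perm.mul_apply, swap_apply_left, swap_apply_right]
  congr 1
  exact propext or_comm

lemma wt_swap2 {p q r : Fin 4} (h1 : p ≠ q) (h2 : p ≠ r) (h3 : (3 : Fin 4) ≠ q)
    (h4 : (3 : Fin 4) ≠ r) (π : P4) : wt p (π * swap q r) = wt p π := by
  unfold wt
  simp only [Perm.mul_apply, swap_apply_of_ne_of_ne h1 h2, swap_apply_of_ne_of_ne h3 h4]

/-- no function on `S₄` has zero mixed differences for disjoint transpositions and values in the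
even or odd multiples of `π` according to the sign. -/
theorem comb (T : P4 → ℝ)
    (hrel : ∀ i k j l : Fin 4, i ≠ k → i ≠ j → i ≠ l → k ≠ j → k ≠ l → j ≠ l → ∀ π,
      T π - T (π * swap i k) - T (π * swap j l) + T (π * swap i k * swap j l) = 0)
    (hint : ∀ π, ∃ m : ℤ, T π = Real.pi * (2 * m + (if Perm.sign π = 1 then 0 else 1))) :
    False := by
  choose m hm using hint
  have h0 := pair_sum T (fun π => (wt 0 π : ℝ)) (i := 0) (k := 3) (j := 1) (l := 2)
    (by decide) (by decide) (fun π => by rw [wt_swap1])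
    (fun π => by rw [wt_swap2 (by decide) (by decide) (by decide) (by decide)])
    (hrel 0 3 1 2 (by decide) (by decide) (by decide) (by decide) (by decide) (by decide))
  have h1 := pair_sum T (fun π => (wt 1 π : ℝ)) (i := 1) (k := 3) (j := 0) (l := 2)
    (by decide) (by decide) (fun π => by rw [wt_swap1])
    (fun π => by rw [wt_swap2 (by decide) (by decide) (by decide) (by decide)])
    (hrel 1 3 0 2 (by decide) (by decide) (by decide) (by decide) (by decide) (by decide))
  have h2 := pair_sum T (fun π => (wt 2 π : ℝ)) (i := 2) (k := 3) (j := 0) (l := 1)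
    (by decide) (by decide) (fun π => by rw [wt_swap1])
    (fun π => by rw [wt_swap2 (by decide) (by decide) (by decide) (by decide)])
    (hrel 2 3 0 1 (by decide) (by decide) (by decide) (by decide) (by decide) (by decide))
  have h3 : ∑ π : P4, sg π * ((if π 3 = 3 then 6 else 0 : ℤ) : ℝ) * T π = 0 := by
    have : ∑ π : P4, sg π * ((if π 3 = 3 then 6 else 0 : ℤ) : ℝ) * T π =
        ∑ π, sg π * (wt 0 π : ℝ) * T π + ∑ π, sg π * (wt 1 π : ℝ) * T π +
          ∑ π, sg π * (wt 2 π : ℝ) * T π := by
      rw [← Finset.sum_add_distrib, ← Finset.sum_add_distrib]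
      refine Finset.sum_congr rfl fun π _ => ?_
      rw [← wt_sum π]
      push_cast
      ring
    rw [this, h0, h1, h2]
    norm_num
  have h4 : (6 * Real.pi) * (((∑ π : P4, (if π 3 = 3 then (Perm.sign π : ℤ) else 0) *
      (2 * m π + (if Perm.sign π = 1 then 0 else 1)) : ℤ)) : ℝ) = 0 := by
    rw [← h3]
    push_cast
    rw [Finset.mul_sum]
    refine Finset.sum_congr rfl fun π _ => ?_
    rw [hm π]
    unfold sg
    by_cases h : π 3 = 3
    · simp only [h, if_true]
      push_cast
      ring
    · simp only [h, if_false]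
      push_cast
      ring
  have h5 : (∑ π : P4, (if π 3 = 3 then (Perm.sign π : ℤ) else 0) *
      (2 * m π + (if Perm.sign π = 1 then 0 else 1)) : ℤ) = 0 := by
    have hpi : (6 * Real.pi) ≠ 0 := by positivity
    have := (mul_eq_zero.1 h4).resolve_left hpi
    exact_mod_cast this
  have h6 : (∑ π : P4, (if π 3 = 3 then (Perm.sign π : ℤ) else 0) *
      (2 * m π + (if Perm.sign π = 1 then 0 else 1)) : ℤ) =
      2 * (∑ π : P4, (if π 3 = 3 then (Perm.sign π : ℤ) else 0) * m π) + -3 := by
    rw [← odd_count, Finset.mul_sum, ← Finset.sum_add_distrib]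
    refine Finset.sum_congr rfl fun π _ => ?_
    ring
  rw [h6] at h5
  omega

end Q88.Piece
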