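import Mathlib

/-!
# Classical multivariable dynamical systems and their C*-correspondences

A classical multivariable dynamical system on a locally compact Hausdorff space `X` is a family
`σ` of proper continuous maps `X → X` (`CocompactMap X X` is the type of continuous maps along which the
cocompact filter tends to the cocompact filter, i.e. of proper continuous maps), indexed by `ι`
(later `ι = Fin n`).
-/

open scoped ZeroAtInfty

namespace Q88.Piece

variable {ι : Type*} {X Y : Type*} [TopologicalSpace X] [TopologicalSpace Y]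

/-- Two systems are piecewise conjugate: there are a homeomorphism `γ` and an open cover `U`
indexed by all permutations `π` of the index set with `τ_i ∘ γ = γ ∘ σ_{π(i)}` on `U π`. -/
def PiecewiseConjugate (σ : ι → (CocompactMap X X)) (τ : ι → (CocompactMap Y Y)) : Prop :=
  ∃ (γ : X ≃ₜ Y) (U : Equiv.Perm ι → Set X), (∀ π, IsOpen (U π)) ∧ (⋃ π, U π) = Set.univ ∧
    ∀ π i, ∀ x ∈ U π, τ i (γ x) = γ (σ (π i) x)

/-- The `C₀(X)`-valued inner product of the right Hilbert module `C₀(X)^n`. -/
noncomputable def innerC [Fintype ι] (ξ η : ι → C₀(X, ℂ)) : C₀(X, ℂ) := ∑ i, star (ξ i) * η i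

/-- The left action of `C₀(X)` on the correspondence of the system `σ`. -/
noncomputable def leftAct (σ : ι → (CocompactMap X X)) (a : C₀(X, ℂ)) (ξ : ι → C₀(X, ℂ)) :
    ι → C₀(X, ℂ) :=
  fun i => a.comp (σ i) * ξ i

/-- Unitary equivalence of the C*-correspondences of the systems `σ` and `τ`. -/
def UnitarilyEquivalent [Fintype ι] (σ : ι → (CocompactMap X X)) (τ : ι → (CocompactMap Y Y)) : Prop :=
  ∃ (ρ : C₀(X, ℂ) ≃⋆ₐ[ℂ] C₀(Y, ℂ)) (U : (ι → C₀(X, ℂ)) →ₗ[ℂ] (ι → C₀(Y, ℂ))),
    Function.Surjective U ∧ (∀ ξ η, innerC (U ξ) (U η) = ρ (innerC ξ η)) ∧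
      ∀ a ξ, U (leftAct σ a ξ) = leftAct τ (ρ a) (U ξ)

end Q88.Piece
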