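import Pool.Agent.Q88.Piece.Defs

/-! # From a unitary equivalence to a map of spaces and a field of unitary matrices -/

open scoped ZeroAtInfty

namespace Q88.Piece

variable {ι : Type*} [Fintype ι] [DecidableEq ι] {X Y : Type*} [TopologicalSpace X]
  [TopologicalSpace Y] [CompactSpace X] [CompactSpace Y] [T2Space X] [T2Space Y]

/-- a continuous function on a compact space as an element of `C₀`. -/
def toC0 (f : C(X, ℂ)) : C₀(X, ℂ) := ⟨f, by simp [Filter.cocompact_eq_bot]⟩

lemma toC0_apply (f : C(X, ℂ)) (x : X) : toC0 f x = f x := rfl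

lemma c0_star_mul (f g : C₀(X, ℂ)) : star (f * g) = star g * star f := by
  ext x
  change star (f x * g x) = star (g x) * star (f x)
  exact star_mul _ _

/-- evaluation at a point -/
noncomputable def evalHom (x : X) : C₀(X, ℂ) →+ ℂ where
  toFun := fun f => f x
  map_zero' := rfl
  map_add' := fun _ _ => rfl

lemma rho_one (ρ : C₀(X, ℂ) ≃⋆ₐ[ℂ] C₀(Y, ℂ)) : ρ (toC0 1) = toC0 1 := by
  have h1 : ∀ g : C₀(Y, ℂ), ρ (toC0 1) * g = g := by
    intro g
    obtain ⟨f, rfl⟩ := EquivLike.surjective ρ g
    rw [← map_mul]
    congr 1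
    ext x
    simp [toC0_apply]
  have h2 := h1 (toC0 1)
  rw [← h2]
  ext y
  simp [toC0_apply]

/-- characters of `C₀(X)`, `X` compact, are evaluations -/
lemma exists_point (ρ : C₀(X, ℂ) ≃⋆ₐ[ℂ] C₀(Y, ℂ)) (y : Y) :
    ∃ x : X, ∀ f : C₀(X, ℂ), ρ f y = f x := by
  let χ : C(X, ℂ) →ₐ[ℂ] ℂ :=
    { toFun := fun f => ρ (toC0 f) y
      map_one' := by rw [rho_one]; rfl
      map_mul' := by
        intro f g
        have : toC0 (f * g) = toC0 f * toC0 g := by ext x; rfl
        rw [this, map_mul]; rfl
      map_zero' := by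
        have : toC0 (0 : C(X, ℂ)) = 0 := by ext x; rfl
        rw [this, map_zero]; rfl
      map_add' := by
        intro f g
        have : toC0 (f + g) = toC0 f + toC0 g := by ext x; rfl
        rw [this, map_add]; rfl
      commutes' := by
        intro c
        have : toC0 (algebraMap ℂ C(X, ℂ) c) = c • toC0 1 := by
          ext x
          simp [toC0_apply]
        rw [this, map_smul, rho_one]
        simp [toC0_apply] }
  let χ' : WeakDual.characterSpace ℂ C(X, ℂ) := WeakDual.CharacterSpace.equivAlgHom.symm χ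
  obtain ⟨x, hx⟩ := (WeakDual.CharacterSpace.continuousMapEval_bijective (X := X) (𝕜 := ℂ)).2 χ'
  refine ⟨x, fun f => ?_⟩
  let f' : C(X, ℂ) := ⟨f, f.continuous⟩
  have h1 : toC0 f' = f := by ext x; rfl
  have h2 : χ' f' = ρ (toC0 f') y := rfl
  rw [h1] at h2
  rw [← h2, ← hx]
  rfl

/-- consequences of a unitary equivalence for systems on compact spaces. -/
theorem extract {σ : ι → CocompactMap X X} {τ : ι → CocompactMap Y Y}
    (h : UnitarilyEquivalent σ τ) :
    ∃ (k : Y → X) (W : Y → Matrix ι ι ℂ), Function.Injective k ∧ Continuous W ∧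
      (∀ y, W y * (W y).conjTranspose = 1) ∧
      ∀ y j i, W y j i ≠ 0 → σ i (k y) = k (τ j y) := by
  obtain ⟨ρ, U, hU, hin, hact⟩ := h
  choose k hk using fun y => exists_point ρ y
  -- the basis vectors
  let e : ι → ι → C₀(X, ℂ) := fun i => Pi.single i (toC0 1)
  let W : Y → Matrix ι ι ℂ := fun y => Matrix.of fun j i => U (e i) j y
  have hW : ∀ y j i, W y j i = U (e i) j y := fun _ _ _ => rfl
  have hcont : Continuous W := by
    refine continuous_matrix fun j i => ?_
    exact (U (e i) j).continuous
  have hinj : Function.Injective k := by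
    intro y y' hyy
    by_contra hne
    obtain ⟨b, hb⟩ : ∃ b : C(Y, ℂ), b y ≠ b y' := by
      obtain ⟨g, hg0, hg1, -⟩ := exists_continuous_zero_one_of_isClosed
        (isClosed_singleton (x := y)) (isClosed_singleton (x := y')) (by simpa using hne)
      refine ⟨⟨fun z => (g z : ℂ), by fun_prop⟩, ?_⟩
      have h0 := hg0 (Set.mem_singleton y)
      have h1 := hg1 (Set.mem_singleton y')
      simp only [Pi.zero_apply, Pi.one_apply] at h0 h1
      simp [h0, h1]
    apply hb
    obtain ⟨a, ha⟩ := EquivLike.surjective ρ (toC0 b)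
    have h1 := hk y a
    have h2 := hk y' a
    rw [ha, toC0_apply] at h1 h2
    rw [h1, h2, hyy]
  -- orthonormality
  have horth : ∀ y, (W y).conjTranspose * W y = 1 := by
    intro y
    ext i l
    have h1 := hin (e i) (e l)
    have h2 : (innerC (U (e i)) (U (e l))) y = (ρ (innerC (e i) (e l))) y := by rw [h1]
    have h3 : (innerC (U (e i)) (U (e l))) y = ((W y).conjTranspose * W y) i l := by
      rw [Matrix.mul_apply]
      unfold innerC
      have : (∑ j, star (U (e i) j) * U (e l) j : C₀(Y, ℂ)) y =
          ∑ j, (star (U (e i) j) * U (e l) j : C₀(Y, ℂ)) y := by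
        have := map_sum (evalHom y)
          (fun j => star (U (e i) j) * U (e l) j) Finset.univ
        exact this
      rw [this]
      rfl
    have h4 : innerC (e i) (e l) = if i = l then toC0 1 else 0 := by
      unfold innerC
      simp only [e]
      rw [Finset.sum_eq_single i]
      · by_cases hil : i = l
        · subst hil
          rw [if_pos rfl, Pi.single_eq_same]
          ext x
          simp [toC0_apply]
        · rw [if_neg hil, Pi.single_eq_of_ne hil, mul_zero]
      · intro j _ hj
        rw [Pi.single_eq_of_ne hj, star_zero, zero_mul]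
      · intro h; exact absurd (Finset.mem_univ i) h
    rw [← h3, h2, h4, Matrix.one_apply]
    split_ifs
    · rw [rho_one]; rfl
    · rw [map_zero]; rfl
  have horth' : ∀ y, W y * (W y).conjTranspose = 1 := fun y =>
    mul_eq_one_comm.1 (horth y)
  refine ⟨k, W, hinj, hcont, horth', ?_⟩
  -- module map property
  have hmod : ∀ (ξ : ι → C₀(X, ℂ)) (b : C₀(X, ℂ)), U (fun i => ξ i * b) = fun j => U ξ j * ρ b := by
    intro ξ b
    set ζ : ι → C₀(Y, ℂ) := U (fun i => ξ i * b) - fun j => U ξ j * ρ b with hζ
    have h1 : ∀ η, innerC ζ (U η) = 0 := by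
      intro η
      have h2 : innerC ζ (U η) = innerC (U (fun i => ξ i * b)) (U η) -
          innerC (fun j => U ξ j * ρ b) (U η) := by
        unfold innerC
        rw [← Finset.sum_sub_distrib]
        refine Finset.sum_congr rfl fun j _ => ?_
        rw [hζ, Pi.sub_apply, star_sub, sub_mul]
      have h3 : innerC (fun i => ξ i * b) η = star b * innerC ξ η := by
        unfold innerC
        rw [Finset.mul_sum]
        refine Finset.sum_congr rfl fun i _ => ?_
        change star (ξ i * b) * η i = _
        rw [c0_star_mul, mul_assoc]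
      have h4 : innerC (fun j => U ξ j * ρ b) (U η) = star (ρ b) * innerC (U ξ) (U η) := by
        unfold innerC
        rw [Finset.mul_sum]
        refine Finset.sum_congr rfl fun i _ => ?_
        change star (U ξ i * ρ b) * U η i = _
        rw [c0_star_mul, mul_assoc]
      rw [h2, h4, hin, hin, h3, map_mul, map_star, sub_self]
    obtain ⟨η, hη⟩ := hU ζ
    have h5 := h1 η
    rw [hη] at h5
    have h6 : ζ = 0 := by
      funext j
      ext y
      have h7 : (innerC ζ ζ) y = 0 := by rw [h5]; rfl
      have h8 : (innerC ζ ζ) y = ∑ j, star (ζ j y) * ζ j y := by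
        unfold innerC
        have := map_sum (evalHom y)
          (fun j => star (ζ j) * ζ j) Finset.univ
        exact this
      rw [h8] at h7
      have h9 : ∑ j, ‖ζ j y‖ ^ 2 = 0 := by
        have h10 : ((∑ j, ‖ζ j y‖ ^ 2 : ℝ) : ℂ) = 0 := by
          push_cast
          rw [← (h7 : _ = (0 : ℂ))]
          refine Finset.sum_congr rfl fun j _ => ?_
          rw [Complex.star_def, mul_comm, Complex.mul_conj, Complex.normSq_eq_norm_sq]
          push_cast; rfl
        exact_mod_cast h10
      have h11 := (Finset.sum_eq_zero_iff_of_nonneg (fun j _ => by positivity)).1 h9 j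
        (Finset.mem_univ j)
      have h12 : ‖ζ j y‖ = 0 := by simpa using h11
      exact norm_eq_zero.1 h12
    rw [hζ, sub_eq_zero] at h6
    exact h6
  -- intertwining
  intro y j i hne
  have hact' : ∀ a : C₀(X, ℂ), a (σ i (k y)) = a (k (τ j y)) := by
    intro a
    have h1 := hact a (e i)
    have h2 : leftAct σ a (e i) = fun l => e i l * a.comp (σ i) := by
      funext l
      unfold leftAct
      simp only [e]
      by_cases hl : l = i
      · subst hl; rw [mul_comm]
      · rw [Pi.single_eq_of_ne hl, mul_zero, zero_mul]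
    rw [h2, hmod] at h1
    have h3 : (U (e i) j * ρ (a.comp (σ i))) y = (leftAct τ (ρ a) (U (e i)) j) y := by
      rw [← h1]
    have h4 : (U (e i) j * ρ (a.comp (σ i))) y = W y j i * a (σ i (k y)) := by
      change U (e i) j y * ρ (a.comp (σ i)) y = _
      rw [hk]; rfl
    have h5 : (leftAct τ (ρ a) (U (e i)) j) y = a (k (τ j y)) * W y j i := by
      change ρ a (τ j y) * U (e i) j y = _
      rw [hk]; rfl
    rw [h4, h5, mul_comm] at h3
    exact mul_right_cancel₀ hne h3
  by_contra hcon
  obtain ⟨g, hg0, hg1, -⟩ := exists_continuous_zero_one_of_isClosed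
    (isClosed_singleton (x := σ i (k y))) (isClosed_singleton (x := k (τ j y)))
    (by simpa using hcon)
  have h0 := hg0 (Set.mem_singleton _)
  have h1 := hg1 (Set.mem_singleton _)
  simp only [Pi.zero_apply, Pi.one_apply] at h0 h1
  have h2 := hact' (toC0 ⟨fun z => (g z : ℂ), by fun_prop⟩)
  rw [toC0_apply, toC0_apply] at h2
  simp [h0, h1] at h2

end Q88.Piece
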