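import Mathlib

/-! # Lifts of circle-valued functions on compact convex sets -/

namespace Q88.Piece

open Complex

variable {E : Type*} [NormedAddCommGroup E] [NormedSpace ℝ E]

/-- continuous lifts through the exponential on compact convex sets. -/
theorem exists_lift {S : Set E} (hS : IsCompact S) (hconv : Convex ℝ S) {g : E → ℂ}
    (hg : ContinuousOn g S) (h1 : ∀ x ∈ S, ‖g x‖ = 1) :
    ∃ φ : E → ℝ, ContinuousOn φ S ∧ ∀ x ∈ S, g x = exp (φ x * I) := by
  classical
  rcases S.eq_empty_or_nonempty with rfl | ⟨x0, hx0⟩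
  · exact ⟨fun _ => 0, continuousOn_empty _, fun x hx => absurd hx (Set.notMem_empty x)⟩
  -- uniform continuity
  have huc := hS.uniformContinuousOn_of_continuous hg
  rw [Metric.uniformContinuousOn_iff] at huc
  obtain ⟨δ, hδ, hδg⟩ := huc 1 one_pos
  obtain ⟨R, hR⟩ := hS.isBounded.exists_norm_le
  have hR0 : 0 ≤ R := (norm_nonneg _).trans (hR x0 hx0)
  obtain ⟨N, hN⟩ := exists_nat_gt (2 * R / δ)
  have hNpos : 0 < (N : ℝ) := lt_of_le_of_lt (by positivity) hN
  -- intermediate points
  let p : ℕ → E → E := fun k x => x0 + ((k : ℝ) / N) • (x - x0)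
  have hp : ∀ k ≤ N, ∀ x ∈ S, p k x ∈ S := by
    intro k hk x hx
    have h := hconv.add_smul_sub_mem hx0 hx (t := (k : ℝ) / N) ⟨by positivity, by
      rw [div_le_one hNpos]; exact_mod_cast hk⟩
    exact h
  have hp0 : ∀ x, p 0 x = x0 := by intro x; simp [p]
  have hpN : ∀ x, p N x = x := by
    intro x
    simp only [p]
    rw [div_self hNpos.ne', one_smul]; abel
  have hpc : ∀ k, Continuous (p k) := by
    intro k
    simp only [p]
    fun_prop
  have hdist : ∀ k, ∀ x ∈ S, dist (p (k + 1) x) (p k x) < δ := by
    intro k x hx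
    rw [dist_eq_norm]
    have : p (k + 1) x - p k x = ((1 : ℝ) / N) • (x - x0) := by
      simp only [p]
      rw [add_sub_add_left_eq_sub, ← sub_smul]
      congr 1
      push_cast
      field_simp
      ring
    rw [this, norm_smul, Real.norm_eq_abs, abs_of_pos (by positivity)]
    have h2 : ‖x - x0‖ ≤ 2 * R := (norm_sub_le _ _).trans (by linarith [hR x hx, hR x0 hx0])
    calc 1 / (N : ℝ) * ‖x - x0‖ ≤ 1 / (N : ℝ) * (2 * R) := by gcongr
      _ = (2 * R) / N := by ring
      _ < δ := by
          rw [div_lt_iff₀ hNpos]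
          rw [div_lt_iff₀ hδ] at hN
          linarith
  -- the quotients
  let q : ℕ → E → ℂ := fun k x => g (p (k + 1) x) * (starRingEnd ℂ) (g (p k x))
  have hq : ∀ k < N, ∀ x ∈ S, ‖q k x‖ = 1 ∧ ‖q k x - 1‖ < 1 := by
    intro k hk x hx
    have a1 := h1 _ (hp (k + 1) hk x hx)
    have a2 := h1 _ (hp k hk.le x hx)
    refine ⟨?_, ?_⟩
    · simp only [q]
      rw [norm_mul, RCLike.norm_conj, a1, a2, one_mul]
    · have h3 := hδg _ (hp (k + 1) hk x hx) _ (hp k hk.le x hx) (hdist k x hx)
      rw [dist_eq_norm] at h3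
      have h4 : g (p k x) * (starRingEnd ℂ) (g (p k x)) = 1 := by
        rw [Complex.mul_conj, Complex.normSq_eq_norm_sq, a2]; simp
      have h5 : q k x - 1 = (g (p (k + 1) x) - g (p k x)) * (starRingEnd ℂ) (g (p k x)) := by
        simp only [q]
        rw [sub_mul, h4]
      rw [h5, norm_mul, RCLike.norm_conj, a2, mul_one]
      exact h3
  have hslit : ∀ k < N, ∀ x ∈ S, q k x ∈ slitPlane := by
    intro k hk x hx
    have h3 := (hq k hk x hx).2
    have h4 : (q k x) = 1 + (q k x - 1) := by ring
    rw [h4]
    exact mem_slitPlane_of_norm_lt_one h3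
  have hqexp : ∀ k < N, ∀ x ∈ S, q k x = exp (arg (q k x) * I) := by
    intro k hk x hx
    have := norm_mul_exp_arg_mul_I (q k x)
    rw [(hq k hk x hx).1, Complex.ofReal_one, one_mul] at this
    exact this.symm
  refine ⟨fun x => arg (g x0) + ∑ k ∈ Finset.range N, arg (q k x), ?_, ?_⟩
  · refine continuousOn_const.add (continuousOn_finsetSum _ fun k hk => ?_)
    have hk' : k < N := Finset.mem_range.1 hk
    intro x hx
    have c1 : ContinuousWithinAt (q k) S x := by
      have b1 : ContinuousOn (fun x => g (p (k + 1) x)) S :=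
        hg.comp (hpc (k + 1)).continuousOn (fun y hy => hp (k + 1) hk' y hy)
      have b2 : ContinuousOn (fun x => g (p k x)) S :=
        hg.comp (hpc k).continuousOn (fun y hy => hp k hk'.le y hy)
      have b3 : ContinuousOn (q k) S := b1.mul (Complex.continuous_conj.comp_continuousOn b2)
      exact b3 x hx
    exact (continuousAt_arg (hslit k hk' x hx)).comp_continuousWithinAt c1
  · intro x hx
    have key : ∀ m ≤ N, g (p m x) = exp (((arg (g x0) + ∑ k ∈ Finset.range m, arg (q k x) : ℝ)) * I) := by
      intro m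
      induction m with
      | zero =>
        intro _
        rw [hp0]
        simp only [Finset.range_zero, Finset.sum_empty, add_zero]
        have := norm_mul_exp_arg_mul_I (g x0)
        rw [h1 x0 hx0, Complex.ofReal_one, one_mul] at this
        exact this.symm
      | succ m ih =>
        intro hm
        have h3 := ih (Nat.le_of_succ_le hm)
        have h4 := hqexp m hm x hx
        have a2 := h1 _ (hp m (Nat.le_of_succ_le hm) x hx)
        have h5 : g (p (m + 1) x) = q m x * g (p m x) := by
          simp only [q]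
          rw [mul_assoc, mul_comm ((starRingEnd ℂ) _), Complex.mul_conj, Complex.normSq_eq_norm_sq,
            a2]
          simp
        calc g (p (m + 1) x) = q m x * g (p m x) := h5
          _ = exp (arg (q m x) * I) *
              exp (((arg (g x0) + ∑ k ∈ Finset.range m, arg (q k x) : ℝ)) * I) := by
              rw [← h4, h3]
          _ = _ := by
              rw [← Complex.exp_add, Finset.sum_range_succ]
              congr 1
              push_cast
              ring
    have := key N le_rfl
    rw [hpN] at this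
    rw [this]

/-- a lift of a constant is constant -/
theorem lift_const {S : Set E} (hconv : Convex ℝ S) {φ : E → ℝ} (hφ : ContinuousOn φ S) {c : ℂ}
    (hc : ∀ x ∈ S, exp (φ x * I) = c) {x y : E} (hx : x ∈ S) (hy : y ∈ S) : φ x = φ y := by
  have key : ∀ a ∈ S, ∀ b ∈ S, ¬ φ a < φ b := by
    intro a ha b hb hlt
    have h1 : exp (φ a * I) = exp (φ b * I) := by rw [hc a ha, hc b hb]
    obtain ⟨n, hn⟩ := Complex.exp_eq_exp_iff_exists_int.1 h1
    have h2 : φ a = φ b + n * (2 * Real.pi) := by
      have h3 : (φ a : ℂ) * I = ((φ b + n * (2 * Real.pi) : ℝ) : ℂ) * I := by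
        rw [hn]; push_cast; ring
      have h4 := mul_right_cancel₀ I_ne_zero h3
      exact_mod_cast h4
    have hn1 : n ≤ -1 := by
      by_contra hcon
      push Not at hcon
      have hn0 : (0 : ℤ) ≤ n := by omega
      have : (0 : ℝ) ≤ n * (2 * Real.pi) := by
        have : (0 : ℝ) ≤ n := by exact_mod_cast hn0
        positivity
      linarith
    have hn2 : (n : ℝ) ≤ -1 := by exact_mod_cast hn1
    have h5 : φ a + Real.pi ∈ Set.Icc (φ a) (φ b) := by
      constructor
      · linarith [Real.pi_pos]
      · nlinarith [Real.pi_pos]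
    obtain ⟨z, hz, hzv⟩ := hconv.isPreconnected.intermediate_value ha hb hφ h5
    have h6 := hc z hz
    rw [hzv] at h6
    push_cast at h6
    rw [add_mul, Complex.exp_add, Complex.exp_pi_mul_I, hc a ha, mul_neg, mul_one] at h6
    have h7 : c = 0 := by
      have : (2 : ℂ) * c = 0 := by linear_combination (-1 : ℂ) * h6
      rcases mul_eq_zero.1 this with h | h
      · norm_num at h
      · exact h
    rw [← hc a ha] at h7
    exact Complex.exp_ne_zero _ h7
  exact le_antisymm (not_lt.1 (key y hy x hx)) (not_lt.1 (key x hx y hy))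

end Q88.Piece
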