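import Pool.Agent.Q88.Piece.Obstruct

/-! # There is no block-unitary map on the simplex -/

namespace Q88.Piece

open Equiv Complex

variable {V : E4 → Matrix (Fin 4) (Fin 4) ℂ}

lemma face_univ : stdSimplex ℝ P4 = face fun _ => True := by
  ext x; simp [face]

/-- lift of a function on a face, with values at vertices -/
lemma exists_face_lift {Q : P4 → Prop} {g : E4 → ℂ} (hg : ContinuousOn g (face Q))
    (h1 : ∀ x ∈ face Q, ‖g x‖ = 1) :
    ∃ φ : E4 → ℝ, ContinuousOn φ (face Q) ∧ ∀ x ∈ face Q, g x = exp (φ x * I) :=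
  exists_lift (isCompact_face Q) (convex_face Q) hg h1

lemma Good.relation (hV : Good V) (D : E4 → ℝ) (hDc : ContinuousOn D (stdSimplex ℝ P4))
    (hD : ∀ x ∈ stdSimplex ℝ P4, (V x).det = exp (D x * I))
    (f : Fin 4 → Fin 4 → E4 → ℝ) (hfc : ∀ i a, ContinuousOn (f i a) (face fun π => π i = a))
    (hf : ∀ i a, ∀ x ∈ face (fun π => π i = a), V x i a = exp (f i a x * I))
    {i k j l : Fin 4} (hik : i ≠ k) (hij : i ≠ j) (hil : i ≠ l) (hkj : k ≠ j) (hkl : k ≠ l)
    (hjl : j ≠ l) (π : P4) (T : P4 → ℝ)
    (hT : ∀ ρ, T ρ = D (vert ρ) - ∑ m, f m (ρ m) (vert ρ)) :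
    T π - T (π * swap i k) - T (π * swap j l) + T (π * swap i k * swap j l) = 0 := by
  classical
  -- the enumeration
  have hinj : Function.Injective (![i, k, j, l] : Fin 4 → Fin 4) := by
    intro r s h
    fin_cases r <;> fin_cases s <;> simp_all
  let e : P4 := Equiv.ofBijective _ (Finite.injective_iff_bijective.1 hinj)
  have e0 : e 0 = i := rfl
  have e1 : e 1 = k := rfl
  have e2 : e 2 = j := rfl
  have e3 : e 3 = l := rfl
  have hall : ∀ m : Fin 4, m = i ∨ m = k ∨ m = j ∨ m = l := by
    intro m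
    obtain ⟨r, rfl⟩ := e.surjective m
    fin_cases r
    · left; rfl
    · right; left; rfl
    · right; right; left; rfl
    · right; right; right; rfl
  set a := π i with ha
  set b := π k with hb
  set c := π j with hc
  set d := π l with hd
  have hab : a ≠ b := fun h => hik (π.injective h)
  have hcd : c ≠ d := fun h => hjl (π.injective h)
  have hac : a ≠ c := fun h => hij (π.injective h)
  have had : a ≠ d := fun h => hil (π.injective h)
  have hbc : b ≠ c := fun h => hkj (π.injective h)
  have hbd : b ≠ d := fun h => hkl (π.injective h)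
  have hall2 : ∀ m : Fin 4, m = a ∨ m = b ∨ m = c ∨ m = d := by
    intro m
    rcases hall (π.symm m) with h | h | h | h
    · left; rw [ha, ← h]; simp
    · right; left; rw [hb, ← h]; simp
    · right; right; left; rw [hc, ← h]; simp
    · right; right; right; rw [hd, ← h]; simp
  let Q : P4 → Prop := fun ρ => ({i, k} : Finset (Fin 4)).image ρ = {a, b}
  have hQblock : ∀ x ∈ face Q, ∀ r s, ¬ (r ∈ ({i, k} : Finset (Fin 4)) ↔
      s ∈ ({a, b} : Finset (Fin 4))) → V x r s = 0 := fun x hx => hV.block _ _ x hx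
  -- minors
  have n1 : ∀ x ∈ face Q, ‖mnr V i k a b x‖ = 1 := by
    intro x hx
    refine hV.mnr_norm hik hab hx.1 fun m hma hmb => ⟨?_, ?_⟩
    · exact hQblock x hx i m (by simp [hma, hmb])
    · exact hQblock x hx k m (by simp [hma, hmb])
  have n2 : ∀ x ∈ face Q, ‖mnr V j l c d x‖ = 1 := by
    intro x hx
    refine hV.mnr_norm hjl hcd hx.1 fun m hmc hmd => ?_
    have hm : m ∈ ({a, b} : Finset (Fin 4)) := by
      rcases hall2 m with h | h | h | h
      · simp [h]
      · simp [h]
      · exact absurd h hmc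
      · exact absurd h hmd
    refine ⟨?_, ?_⟩
    · refine hQblock x hx j m ?_
      have : j ∉ ({i, k} : Finset (Fin 4)) := by simp [hij.symm, hkj.symm]
      simp only [hm, iff_true]
      exact this
    · refine hQblock x hx l m ?_
      have : l ∉ ({i, k} : Finset (Fin 4)) := by simp [hil.symm, hkl.symm]
      simp only [hm, iff_true]
      exact this
  have mcont : ∀ (i k a b : Fin 4), ContinuousOn (mnr V i k a b) (stdSimplex ℝ P4) := by
    intro i k a b
    exact ((hV.entry_cont i a).mul (hV.entry_cont k b)).sub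
      ((hV.entry_cont i b).mul (hV.entry_cont k a))
  obtain ⟨Φ, hΦc, hΦ⟩ := exists_face_lift (Q := Q) ((mcont i k a b).mono (face_subset Q)) n1
  obtain ⟨Ψ, hΨc, hΨ⟩ := exists_face_lift (Q := Q) ((mcont j l c d).mono (face_subset Q)) n2
  -- membership of the vertices
  have q0 : Q π := by simp only [Q, Finset.image_insert, Finset.image_singleton]; rfl
  have q1 : Q (π * swap i k) := by
    simp only [Q, Finset.image_insert, Finset.image_singleton, Perm.mul_apply, swap_apply_left,
      swap_apply_right]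
    rw [Finset.pair_comm]
  have ti : swap j l i = i := swap_apply_of_ne_of_ne hij hil
  have tk : swap j l k = k := swap_apply_of_ne_of_ne hkj hkl
  have sj : swap i k j = j := swap_apply_of_ne_of_ne hij.symm hkj.symm
  have sl : swap i k l = l := swap_apply_of_ne_of_ne hil.symm hkl.symm
  have q2 : Q (π * swap j l) := by
    simp only [Q, Finset.image_insert, Finset.image_singleton, Perm.mul_apply, ti, tk]; rfl
  have q3 : Q (π * swap i k * swap j l) := by
    simp only [Q, Finset.image_insert, Finset.image_singleton, Perm.mul_apply, ti, tk,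
      swap_apply_left, swap_apply_right]
    rw [Finset.pair_comm]
  -- constancy of `D - Φ - Ψ`
  have cD : ∀ x ∈ face Q, ∀ y ∈ face Q, D x - Φ x - Ψ x = D y - Φ y - Ψ y := by
    intro x hx y hy
    refine lift_const (c := ((Perm.sign π : ℤ) : ℂ)) (convex_face Q)
      (φ := fun x => D x - Φ x - Ψ x) (((hDc.mono (face_subset Q)).sub hΦc).sub hΨc)
      (fun z hz => ?_) hx hy
    have h1 := hV.det_face e π (x := z) hz
    rw [e0, e1, e2, e3, hD z hz.1] at h1
    rw [← ha, ← hb, ← hc, ← hd, hΦ z hz, hΨ z hz, ← Complex.exp_add] at h1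
    have h2 : exp (((D z - Φ z - Ψ z : ℝ) : ℂ) * I) = exp (D z * I) * exp (-(Φ z * I + Ψ z * I)) := by
      rw [← Complex.exp_add]; congr 1; push_cast; ring
    have hs : ((Perm.sign π : ℤ) : ℂ) * ((Perm.sign π : ℤ) : ℂ) = 1 := by
      rcases Int.units_eq_one_or (Perm.sign π) with h | h <;> simp [h]
    rw [h2]
    have h3 : exp (Φ z * I + Ψ z * I) * exp (-(Φ z * I + Ψ z * I)) = 1 := by
      rw [← Complex.exp_add]; simp
    calc exp (D z * I) * exp (-(Φ z * I + Ψ z * I))
        = (((Perm.sign π : ℤ) : ℂ) * ((Perm.sign π : ℤ) : ℂ)) * exp (D z * I) *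
          exp (-(Φ z * I + Ψ z * I)) := by rw [hs, one_mul]
      _ = ((Perm.sign π : ℤ) : ℂ) * (((Perm.sign π : ℤ) : ℂ) * exp (D z * I)) *
          exp (-(Φ z * I + Ψ z * I)) := by ring
      _ = ((Perm.sign π : ℤ) : ℂ) * (exp (Φ z * I + Ψ z * I) *
          exp (-(Φ z * I + Ψ z * I))) := by rw [h1]; ring
      _ = _ := by rw [h3, mul_one]
  -- constancy of the minors relative to entries: general statement
  have cM : ∀ (r s p q : Fin 4) (κ : ℂ) (F : E4 → ℝ) (G : E4 → ℂ), κ * κ = 1 → r ≠ s →
      (∀ x ∈ face (fun ρ : P4 => ρ r = p ∧ ρ s = q), x ∈ face Q) →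
      ContinuousOn F (face Q) → (∀ x ∈ face Q, G x = exp (F x * I)) →
      (∀ x ∈ face (fun ρ : P4 => ρ r = p ∧ ρ s = q), G x = κ * (V x r p * V x s q)) →
      ∀ x ∈ face (fun ρ : P4 => ρ r = p ∧ ρ s = q), ∀ y ∈ face (fun ρ : P4 => ρ r = p ∧ ρ s = q),
        F x - f r p x - f s q x = F y - f r p y - f s q y := by
    intro r s p q κ F G hκ _ hsub hFc hFG hG x hx y hy
    have m1 : face (fun ρ : P4 => ρ r = p ∧ ρ s = q) ⊆ face fun ρ => ρ r = p :=
      face_mono fun ρ h => h.1
    have m2 : face (fun ρ : P4 => ρ r = p ∧ ρ s = q) ⊆ face fun ρ => ρ s = q :=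
      face_mono fun ρ h => h.2
    refine lift_const (c := κ) (convex_face _)
      (φ := fun x => F x - f r p x - f s q x)
      (((hFc.mono hsub).sub ((hfc r p).mono m1)).sub ((hfc s q).mono m2)) (fun z hz => ?_) hx hy
    have h1 := hG z hz
    rw [hFG z (hsub z hz), hf r p z (m1 hz), hf s q z (m2 hz), ← Complex.exp_add] at h1
    have h2 : exp (((F z - f r p z - f s q z : ℝ) : ℂ) * I) =
        exp (F z * I) * exp (-(f r p z * I + f s q z * I)) := by
      rw [← Complex.exp_add]; congr 1; push_cast; ring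
    rw [h2, h1, mul_assoc, ← Complex.exp_add, add_neg_cancel, Complex.exp_zero, mul_one]
  -- vanishing of entries on small faces
  have zrow : ∀ (r p m : Fin 4) (x : E4), x ∈ face (fun ρ : P4 => ρ r = p) → m ≠ p →
      V x r m = 0 := by
    intro r p m x hx hm
    have hx' : x ∈ face (fun π => ({r} : Finset (Fin 4)).image π = {p}) :=
      face_mono (fun π hπ => by rw [Finset.image_singleton, hπ]) hx
    exact hV.block _ _ x hx' r m (by simp [hm])
  have compl : ∀ ρ : P4, ρ j = c ∧ ρ l = d ∨ ρ j = d ∧ ρ l = c → Q ρ := by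
    intro ρ hρ
    have hi : ρ i = a ∨ ρ i = b := by
      rcases hall2 (ρ i) with h | h | h | h
      · exact Or.inl h
      · exact Or.inr h
      · rcases hρ with h' | h'
        · exact absurd (ρ.injective (h.trans h'.1.symm)) hij
        · exact absurd (ρ.injective (h.trans h'.2.symm)) hil
      · rcases hρ with h' | h'
        · exact absurd (ρ.injective (h.trans h'.2.symm)) hil
        · exact absurd (ρ.injective (h.trans h'.1.symm)) hij
    have hk : ρ k = a ∨ ρ k = b := by
      rcases hall2 (ρ k) with h | h | h | h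
      · exact Or.inl h
      · exact Or.inr h
      · rcases hρ with h' | h'
        · exact absurd (ρ.injective (h.trans h'.1.symm)) hkj
        · exact absurd (ρ.injective (h.trans h'.2.symm)) hkl
      · rcases hρ with h' | h'
        · exact absurd (ρ.injective (h.trans h'.2.symm)) hkl
        · exact absurd (ρ.injective (h.trans h'.1.symm)) hkj
    have hne : ρ i ≠ ρ k := fun h => hik (ρ.injective h)
    simp only [Q, Finset.image_insert, Finset.image_singleton]
    rcases hi with hi | hi <;> rcases hk with hk | hk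
    · exact absurd (hi.trans hk.symm) hne
    · rw [hi, hk]
    · rw [hi, hk, Finset.pair_comm]
    · exact absurd (hi.trans hk.symm) hne
  -- four applications
  have A1 : ∀ x ∈ face (fun ρ : P4 => ρ i = a ∧ ρ k = b),
      ∀ y ∈ face (fun ρ : P4 => ρ i = a ∧ ρ k = b),
      Φ x - f i a x - f k b x = Φ y - f i a y - f k b y := by
    refine cM i k a b 1 Φ (mnr V i k a b) (by norm_num) hik ?_ hΦc hΦ ?_
    · exact fun x hx => face_mono (fun ρ h => by
        simp only [Q, Finset.image_insert, Finset.image_singleton, h.1, h.2]) hx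
    · intro x hx
      have := zrow i a b x (face_mono (fun ρ h => h.1) hx) hab.symm
      unfold mnr
      rw [this]; ring
  have A2 : ∀ x ∈ face (fun ρ : P4 => ρ i = b ∧ ρ k = a),
      ∀ y ∈ face (fun ρ : P4 => ρ i = b ∧ ρ k = a),
      Φ x - f i b x - f k a x = Φ y - f i b y - f k a y := by
    refine cM i k b a (-1) Φ (mnr V i k a b) (by norm_num) hik ?_ hΦc hΦ ?_
    · exact fun x hx => face_mono (fun ρ h => by
        simp only [Q, Finset.image_insert, Finset.image_singleton, h.1, h.2]
        rw [Finset.pair_comm]) hx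
    · intro x hx
      have := zrow i b a x (face_mono (fun ρ h => h.1) hx) hab
      unfold mnr
      rw [this]; ring
  have A3 : ∀ x ∈ face (fun ρ : P4 => ρ j = c ∧ ρ l = d),
      ∀ y ∈ face (fun ρ : P4 => ρ j = c ∧ ρ l = d),
      Ψ x - f j c x - f l d x = Ψ y - f j c y - f l d y := by
    refine cM j l c d 1 Ψ (mnr V j l c d) (by norm_num) hjl ?_ hΨc hΨ ?_
    · exact fun x hx => face_mono (fun ρ h => compl ρ (Or.inl h)) hx
    · intro x hx
      have := zrow j c d x (face_mono (fun ρ h => h.1) hx) hcd.symm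
      unfold mnr
      rw [this]; ring
  have A4 : ∀ x ∈ face (fun ρ : P4 => ρ j = d ∧ ρ l = c),
      ∀ y ∈ face (fun ρ : P4 => ρ j = d ∧ ρ l = c),
      Ψ x - f j d x - f l c x = Ψ y - f j d y - f l c y := by
    refine cM j l d c (-1) Ψ (mnr V j l c d) (by norm_num) hjl ?_ hΨc hΨ ?_
    · exact fun x hx => face_mono (fun ρ h => compl ρ (Or.inr h)) hx
    · intro x hx
      have := zrow j d c x (face_mono (fun ρ h => h.1) hx) hcd
      unfold mnr
      rw [this]; ring
  -- values at the vertices
  have v1 := A1 (vert π) (vert_mem ⟨rfl, rfl⟩) (vert (π * swap j l))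
    (vert_mem ⟨by rw [Perm.mul_apply, ti], by rw [Perm.mul_apply, tk]⟩)
  have v2 := A2 (vert (π * swap i k)) (vert_mem ⟨by rw [Perm.mul_apply, swap_apply_left],
      by rw [Perm.mul_apply, swap_apply_right]⟩) (vert (π * swap i k * swap j l))
    (vert_mem ⟨by rw [Perm.mul_apply, ti, Perm.mul_apply, swap_apply_left],
      by rw [Perm.mul_apply, tk, Perm.mul_apply, swap_apply_right]⟩)
  have v3 := A3 (vert π) (vert_mem ⟨rfl, rfl⟩) (vert (π * swap i k))
    (vert_mem ⟨by rw [Perm.mul_apply, sj], by rw [Perm.mul_apply, sl]⟩)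
  have v4 := A4 (vert (π * swap j l)) (vert_mem ⟨by rw [Perm.mul_apply, swap_apply_left],
      by rw [Perm.mul_apply, swap_apply_right]⟩) (vert (π * swap i k * swap j l))
    (vert_mem ⟨by rw [Perm.mul_apply, swap_apply_left, Perm.mul_apply, sl],
      by rw [Perm.mul_apply, swap_apply_right, Perm.mul_apply, sj]⟩)
  have d1 := cD (vert π) (vert_mem q0) (vert (π * swap i k)) (vert_mem q1)
  have d2 := cD (vert π) (vert_mem q0) (vert (π * swap j l)) (vert_mem q2)
  have d3 := cD (vert π) (vert_mem q0) (vert (π * swap i k * swap j l)) (vert_mem q3)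
  -- sums
  have hsum : ∀ F : Fin 4 → ℝ, ∑ m, F m = F i + F k + F j + F l := by
    intro F
    rw [← Equiv.sum_comp e, Fin.sum_univ_four, e0, e1, e2, e3]
  rw [hT, hT, hT, hT, hsum, hsum, hsum, hsum]
  simp only [Perm.mul_apply, ti, tk, sj, sl, swap_apply_left, swap_apply_right, ← ha, ← hb,
    ← hc, ← hd]
  linarith

theorem not_good (hV : Good V) : False := by
  classical
  obtain ⟨D, hDc, hD⟩ := exists_lift (isCompact_stdSimplex ℝ P4) (convex_stdSimplex ℝ P4)
    (g := fun x => (V x).det) (by
      have : Continuous fun M : Matrix (Fin 4) (Fin 4) ℂ => M.det := continuous_id.matrix_det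
      exact this.comp_continuousOn hV.cont) (fun x hx => hV.det_norm hx)
  have hf0 : ∀ i a, ∃ φ : E4 → ℝ, ContinuousOn φ (face fun π : P4 => π i = a) ∧
      ∀ x ∈ face (fun π : P4 => π i = a), V x i a = exp (φ x * I) := by
    intro i a
    exact exists_face_lift ((hV.entry_cont i a).mono (face_subset _))
      (fun x hx => hV.single_norm hx)
  choose f hfc hf using hf0
  let T : P4 → ℝ := fun ρ => D (vert ρ) - ∑ m, f m (ρ m) (vert ρ)
  refine comb T ?_ ?_
  · intro i k j l h1 h2 h3 h4 h5 h6 π
    exact hV.relation D hDc hD f hfc hf h1 h2 h3 h4 h5 h6 π T fun _ => rfl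
  · intro π
    have hv : vert π ∈ stdSimplex ℝ P4 := (vert_mem (Q := fun _ => True) trivial).1
    have h1 := hV.det_vert π
    have h2 : ∏ i, V (vert π) i (π i) = exp ((∑ m, f m (π m) (vert π) : ℝ) * I) := by
      push_cast
      rw [Finset.sum_mul, Complex.exp_sum]
      exact Finset.prod_congr rfl fun m _ => hf m (π m) _ (vert_mem rfl)
    rw [h2, hD _ hv] at h1
    have h3 : ((Perm.sign π : ℤ) : ℂ) * exp ((T π : ℂ) * I) = 1 := by
      have h4 : exp ((T π : ℂ) * I) = exp (D (vert π) * I) *
          exp (-(((∑ m, f m (π m) (vert π) : ℝ) : ℂ) * I)) := by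
        rw [← Complex.exp_add]; congr 1; simp only [T]; push_cast; ring
      rw [h4, ← mul_assoc, h1, ← Complex.exp_add, add_neg_cancel, Complex.exp_zero]
    rcases Int.units_eq_one_or (Perm.sign π) with hs | hs
    · rw [hs] at h3
      simp only [Units.val_one, Int.cast_one, one_mul] at h3
      obtain ⟨n, hn⟩ := Complex.exp_eq_one_iff.1 h3
      refine ⟨n, ?_⟩
      rw [hs, if_pos rfl]
      have h5 : (T π : ℂ) * I = ((Real.pi * (2 * n + 0) : ℝ) : ℂ) * I := by
        rw [hn]; push_cast; ring
      exact_mod_cast mul_right_cancel₀ I_ne_zero h5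
    · rw [hs] at h3
      have h6 : exp ((T π : ℂ) * I - Real.pi * I) = 1 := by
        rw [Complex.exp_sub, Complex.exp_pi_mul_I]
        simp only [Units.val_neg, Units.val_one, Int.cast_neg, Int.cast_one] at h3
        rw [div_neg, div_one]
        linear_combination h3
      obtain ⟨n, hn⟩ := Complex.exp_eq_one_iff.1 h6
      refine ⟨n, ?_⟩
      rw [hs, if_neg (by decide)]
      have h5 : (T π : ℂ) * I = ((Real.pi * (2 * n + 1) : ℝ) : ℂ) * I := by
        have : (T π : ℂ) * I = ((T π : ℂ) * I - Real.pi * I) + Real.pi * I := by ring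
        rw [this, hn]; push_cast; ring
      exact_mod_cast mul_right_cancel₀ I_ne_zero h5

end Q88.Piece
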