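import Pool.Agent.Q88.Piece.Comb
import Pool.Agent.Q88.Piece.Lift

/-! # The topological obstruction -/

namespace Q88.Piece

open Equiv

/-- functions on the set of permutations -/
abbrev E4 := P4 → ℝ

/-- the face of the simplex spanned by the permutations with `Q` -/
def face (Q : P4 → Prop) : Set E4 := {x | x ∈ stdSimplex ℝ P4 ∧ ∀ π, ¬ Q π → x π = 0}

lemma face_mono {Q R : P4 → Prop} (h : ∀ π, Q π → R π) : face Q ⊆ face R :=
  fun _ hx => ⟨hx.1, fun π hπ => hx.2 π fun hq => hπ (h π hq)⟩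

lemma face_subset (Q : P4 → Prop) : face Q ⊆ stdSimplex ℝ P4 := fun _ hx => hx.1

lemma isCompact_face (Q : P4 → Prop) : IsCompact (face Q) := by
  refine (isCompact_stdSimplex ℝ P4).of_isClosed_subset ?_ (face_subset Q)
  have h1 : IsClosed {x : E4 | ∀ π, ¬ Q π → x π = 0} := by
    simp only [Set.ofPred_forall]
    exact isClosed_iInter fun π => isClosed_iInter fun _ =>
      isClosed_eq (continuous_apply π) continuous_const
  exact (isCompact_stdSimplex ℝ P4).isClosed.inter h1

lemma convex_face (Q : P4 → Prop) : Convex ℝ (face Q) := by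
  have h1 : Convex ℝ {x : E4 | ∀ π, ¬ Q π → x π = 0} := by
    intro x hx y hy a b _ _ _ π hπ
    simp only [Pi.add_apply, Pi.smul_apply, hx π hπ, hy π hπ, smul_zero, add_zero]
  exact (convex_stdSimplex ℝ P4).inter h1

/-- the vertex of a permutation -/
def vert (π : P4) : E4 := Pi.single π 1

lemma vert_mem {Q : P4 → Prop} {π : P4} (h : Q π) : vert π ∈ face Q := by
  refine ⟨?_, ?_⟩
  · exact single_mem_stdSimplex ℝ π
  · intro ρ hρ
    have : ρ ≠ π := by rintro rfl; exact hρ h
    exact Pi.single_eq_of_ne this 1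

/-- the data of a block-unitary map on the simplex -/
structure Good (V : E4 → Matrix (Fin 4) (Fin 4) ℂ) : Prop where
  cont : ContinuousOn V (stdSimplex ℝ P4)
  uni : ∀ x ∈ stdSimplex ℝ P4, V x * (V x).conjTranspose = 1
  block : ∀ A B : Finset (Fin 4), ∀ x ∈ face (fun π => A.image π = B), ∀ i j,
    ¬ (i ∈ A ↔ j ∈ B) → V x i j = 0

variable {V : E4 → Matrix (Fin 4) (Fin 4) ℂ}

lemma Good.entry_cont (hV : Good V) (i j : Fin 4) : ContinuousOn (fun x => V x i j)
    (stdSimplex ℝ P4) := by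
  have : Continuous fun M : Matrix (Fin 4) (Fin 4) ℂ => M i j := continuous_id.matrix_elem i j
  exact this.comp_continuousOn hV.cont

lemma Good.row (hV : Good V) {x : E4} (hx : x ∈ stdSimplex ℝ P4) (i : Fin 4) :
    ∑ j, ‖V x i j‖ ^ 2 = 1 := by
  have h := congrArg (fun M => M i i) (hV.uni x hx)
  simp only [Matrix.mul_apply, Matrix.conjTranspose_apply, Matrix.one_apply_eq] at h
  have h2 : ∀ j, V x i j * star (V x i j) = ((‖V x i j‖ ^ 2 : ℝ) : ℂ) := by
    intro j
    rw [Complex.star_def, Complex.mul_conj, Complex.normSq_eq_norm_sq]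
  simp only [h2] at h
  exact_mod_cast h

lemma Good.row2 (hV : Good V) {x : E4} (hx : x ∈ stdSimplex ℝ P4) {i k : Fin 4} (hik : i ≠ k) :
    ∑ j, V x i j * (starRingEnd ℂ) (V x k j) = 0 := by
  have h := congrArg (fun M => M i k) (hV.uni x hx)
  simpa only [Matrix.mul_apply, Matrix.conjTranspose_apply, Matrix.one_apply_ne hik,
    Complex.star_def] using h

lemma Good.single_norm (hV : Good V) {i a : Fin 4} {x : E4} (hx : x ∈ face fun π => π i = a) :
    ‖V x i a‖ = 1 := by
  have hx' : x ∈ face (fun π => ({i} : Finset (Fin 4)).image π = {a}) :=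
    face_mono (fun π hπ => by rw [Finset.image_singleton, hπ]) hx
  have h0 : ∀ j, j ≠ a → V x i j = 0 := by
    intro j hj
    exact hV.block _ _ x hx' i j (by simp [hj])
  have h1 := hV.row hx.1 i
  rw [Finset.sum_eq_single a (fun j _ hj => by rw [h0 j hj]; simp) (by simp)] at h1
  nlinarith [norm_nonneg (V x i a)]

/-- two by two minors -/
def mnr (V : E4 → Matrix (Fin 4) (Fin 4) ℂ) (i k a b : Fin 4) (x : E4) : ℂ :=
  V x i a * V x k b - V x i b * V x k a

lemma Good.mnr_norm (hV : Good V) {i k a b : Fin 4} (hik : i ≠ k) (hab : a ≠ b) {x : E4}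
    (hx : x ∈ stdSimplex ℝ P4)
    (h : ∀ j, j ≠ a → j ≠ b → V x i j = 0 ∧ V x k j = 0) : ‖mnr V i k a b x‖ = 1 := by
  have hs : ∀ f : Fin 4 → ℝ, (∀ j, j ≠ a → j ≠ b → f j = 0) → ∑ j, f j = f a + f b := by
    intro f hf
    rw [← Finset.sum_pair hab]
    symm
    refine Finset.sum_subset (Finset.subset_univ _) fun j _ hj => ?_
    simp only [Finset.mem_insert, Finset.mem_singleton, not_or] at hj
    exact hf j hj.1 hj.2
  have hsc : ∀ f : Fin 4 → ℂ, (∀ j, j ≠ a → j ≠ b → f j = 0) → ∑ j, f j = f a + f b := by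
    intro f hf
    rw [← Finset.sum_pair hab]
    symm
    refine Finset.sum_subset (Finset.subset_univ _) fun j _ hj => ?_
    simp only [Finset.mem_insert, Finset.mem_singleton, not_or] at hj
    exact hf j hj.1 hj.2
  have r1 := hV.row hx i
  have r2 := hV.row hx k
  have r3 := hV.row2 hx hik
  rw [hs _ fun j h1 h2 => by rw [(h j h1 h2).1]; simp] at r1
  rw [hs _ fun j h1 h2 => by rw [(h j h1 h2).2]; simp] at r2
  rw [hsc _ fun j h1 h2 => by rw [(h j h1 h2).1]; simp] at r3
  have key : ‖mnr V i k a b x‖ ^ 2 + ‖V x i a * (starRingEnd ℂ) (V x k a) +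
      V x i b * (starRingEnd ℂ) (V x k b)‖ ^ 2 =
      (‖V x i a‖ ^ 2 + ‖V x i b‖ ^ 2) * (‖V x k a‖ ^ 2 + ‖V x k b‖ ^ 2) := by
    unfold mnr
    generalize V x i a = z1
    generalize V x i b = z2
    generalize V x k a = z3
    generalize V x k b = z4
    simp only [← Complex.normSq_eq_norm_sq, Complex.normSq_apply, Complex.sub_re, Complex.sub_im,
      Complex.add_re, Complex.add_im, Complex.mul_re, Complex.mul_im, Complex.conj_re,
      Complex.conj_im]
    ring
  rw [r1, r2, r3, norm_zero] at key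
  nlinarith [norm_nonneg (mnr V i k a b x)]

lemma Good.det_norm (hV : Good V) {x : E4} (hx : x ∈ stdSimplex ℝ P4) : ‖(V x).det‖ = 1 := by
  have h := congrArg Matrix.det (hV.uni x hx)
  rw [Matrix.det_mul, Matrix.det_conjTranspose, Matrix.det_one, Complex.star_def,
    Complex.mul_conj, Complex.normSq_eq_norm_sq] at h
  have h1 : ‖(V x).det‖ ^ 2 = 1 := by exact_mod_cast h
  nlinarith [norm_nonneg ((V x).det)]

lemma det_sub (M : Matrix (Fin 4) (Fin 4) ℂ) (e π : P4) :
    (M.submatrix e (π * e)).det = ((Perm.sign π : ℤ) : ℂ) * M.det := by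
  have h1 : M.submatrix e (π * e) = (M.submatrix id (π * e)).submatrix e id := rfl
  rw [h1, Matrix.det_permute, Matrix.det_permute', ← mul_assoc, Perm.sign_mul]
  push_cast
  have h2 : ((Perm.sign e : ℤ) : ℂ) * ((Perm.sign e : ℤ) : ℂ) = 1 := by
    rcases Int.units_eq_one_or (Perm.sign e) with h | h <;> simp [h]
  linear_combination (((Perm.sign π : ℤ) : ℂ) * M.det) * h2

/-- determinant at a vertex -/
lemma Good.det_vert (hV : Good V) (π : P4) :
    ((Perm.sign π : ℤ) : ℂ) * (V (vert π)).det = ∏ i, V (vert π) i (π i) := by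
  have h := det_sub (V (vert π)) 1 π
  rw [← h]
  have hd : (V (vert π)).submatrix (1 : P4) ((π * 1 : P4) : Fin 4 → Fin 4) =
      Matrix.diagonal fun i => V (vert π) i (π i) := by
    ext i j
    rw [mul_one, Matrix.submatrix_apply, Perm.one_apply]
    by_cases hij : i = j
    · subst hij; simp
    · rw [Matrix.diagonal_apply_ne _ hij]
      have hx' : vert π ∈ face (fun ρ => ({i} : Finset (Fin 4)).image ρ = {π i}) :=
        vert_mem (by rw [Finset.image_singleton])
      refine hV.block _ _ _ hx' i (π j) ?_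
      have : π j ≠ π i := fun h => hij (π.injective h).symm
      simp [this]
  rw [hd, Matrix.det_diagonal]

/-- determinant on a two plus two face -/
lemma Good.det_face (hV : Good V) (e π : P4) {x : E4}
    (hx : x ∈ face fun ρ => ({e 0, e 1} : Finset (Fin 4)).image ρ = {π (e 0), π (e 1)}) :
    ((Perm.sign π : ℤ) : ℂ) * (V x).det = mnr V (e 0) (e 1) (π (e 0)) (π (e 1)) x *
      mnr V (e 2) (e 3) (π (e 2)) (π (e 3)) x := by
  rw [← det_sub (V x) e π]
  have hb := hV.block _ _ x hx
  have hne : ∀ r s : Fin 4, r ≠ s → e r ≠ e s := fun r s h h' => h (e.injective h')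
  have hne2 : ∀ r s : Fin 4, r ≠ s → π (e r) ≠ π (e s) :=
    fun r s h h' => h (e.injective (π.injective h'))
  have z : ∀ r s : Fin 4, ((r = 0 ∨ r = 1) ∧ (s = 2 ∨ s = 3)) ∨
      ((r = 2 ∨ r = 3) ∧ (s = 0 ∨ s = 1)) → V x (e r) (π (e s)) = 0 := by
    intro r s hrs
    refine hb _ _ ?_
    simp only [Finset.mem_insert, Finset.mem_singleton, EmbeddingLike.apply_eq_iff_eq]
    rcases hrs with ⟨rfl | rfl, rfl | rfl⟩ | ⟨rfl | rfl, rfl | rfl⟩ <;> decide
  set N := (V x).submatrix e (π * e) with hN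
  have hNe : ∀ r s, N r s = V x (e r) (π (e s)) := fun r s => rfl
  have z02 : N 0 2 = 0 := z 0 2 (by decide)
  have z03 : N 0 3 = 0 := z 0 3 (by decide)
  have z12 : N 1 2 = 0 := z 1 2 (by decide)
  have z13 : N 1 3 = 0 := z 1 3 (by decide)
  have z20 : N 2 0 = 0 := z 2 0 (by decide)
  have z21 : N 2 1 = 0 := z 2 1 (by decide)
  have z30 : N 3 0 = 0 := z 3 0 (by decide)
  have z31 : N 3 1 = 0 := z 3 1 (by decide)
  unfold mnr
  simp only [← hNe]
  rw [Matrix.det_succ_row_zero]
  simp only [Fin.sum_univ_four, Matrix.det_fin_three, Matrix.submatrix_apply]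
  simp [Fin.succAbove, z02, z03, z12, z13, z20, z21, z30, z31]
  ring

end Q88.Piece
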