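import Pool.Agent.Q88.Piece.System

/-! # Rigidity of the example and the final contradiction -/

open scoped ZeroAtInfty

namespace Q88.Piece

open Equiv

lemma half_ne_uhalf (t : unitInterval) : half t ≠ uhalf t := by
  intro h
  have h1 : (t : ℝ) / 2 = (1 + t) / 2 := congrArg Subtype.val h
  linarith

lemma N4_eq : N4 = 280 := by
  unfold N4
  rw [Fintype.card_sum, Fintype.card_perm, Fintype.card_prod, Fintype.card_finset]
  simp [Nat.factorial]

/-- the value of a map at a point of the interval -/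
lemma sigF_inr (j : J4) (t : unitInterval) :
    sigF j (Sum.inr t) = Sum.inr (if j.isLeft then half t else uhalf t) := by
  cases j <;> rfl

lemma tauF_inr (j : J4) (t : unitInterval) :
    tauF j (Sum.inr t) = Sum.inr (if j.isLeft then half t else uhalf t) := by
  cases j <;> rfl

/-- no unitary matrix vanishes on the diagonal blocks -/
lemma no_off (W : Matrix J4 J4 ℂ) (h1 : W * W.conjTranspose = 1)
    (hm : ∀ i j : Fin 4, W (Sum.inl i) (Sum.inl j) = 0)
    (ha : ∀ i j : M4, W (Sum.inr i) (Sum.inr j) = 0) : False := by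
  have h2 : W.conjTranspose * W = 1 := mul_eq_one_comm.1 h1
  have row : ∀ j, ∑ i, ‖W j i‖ ^ 2 = 1 := by
    intro j
    have h := congrArg (fun M => M j j) h1
    simp only [Matrix.mul_apply, Matrix.conjTranspose_apply, Matrix.one_apply_eq] at h
    have h2 : ∀ i, W j i * star (W j i) = ((‖W j i‖ ^ 2 : ℝ) : ℂ) := by
      intro i
      rw [Complex.star_def, Complex.mul_conj, Complex.normSq_eq_norm_sq]
    simp only [h2] at h
    exact_mod_cast h
  have col : ∀ i, ∑ j, ‖W j i‖ ^ 2 = 1 := by
    intro i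
    have h := congrArg (fun M => M i i) h2
    simp only [Matrix.mul_apply, Matrix.conjTranspose_apply, Matrix.one_apply_eq] at h
    have h2 : ∀ j, star (W j i) * W j i = ((‖W j i‖ ^ 2 : ℝ) : ℂ) := by
      intro j
      rw [mul_comm, Complex.star_def, Complex.mul_conj, Complex.normSq_eq_norm_sq]
    simp only [h2] at h
    exact_mod_cast h
  have e1 : ∑ j : Fin 4, ∑ i : M4, ‖W (Sum.inl j) (Sum.inr i)‖ ^ 2 = 4 := by
    have : ∀ j : Fin 4, ∑ i : M4, ‖W (Sum.inl j) (Sum.inr i)‖ ^ 2 = 1 := by
      intro j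
      have := row (Sum.inl j)
      rw [Fintype.sum_sum_type] at this
      simpa [hm] using this
    simp [this]
  have e2 : ∑ i : M4, ∑ j : Fin 4, ‖W (Sum.inl j) (Sum.inr i)‖ ^ 2 = N4 := by
    have : ∀ i : M4, ∑ j : Fin 4, ‖W (Sum.inl j) (Sum.inr i)‖ ^ 2 = 1 := by
      intro i
      have := col (Sum.inr i)
      rw [Fintype.sum_sum_type] at this
      simpa [ha] using this
    simp only [this, Finset.sum_const, Finset.card_univ, nsmul_eq_mul, mul_one]
    rfl
  rw [Finset.sum_comm, e1, N4_eq] at e2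
  norm_num at e2

section

variable {k : Z4 → Z4} {W : Z4 → Matrix J4 J4 ℂ} (hk : Function.Injective k)
  (hW : ∀ y, W y * (W y).conjTranspose = 1)
  (h : ∀ y j i, W y j i ≠ 0 → sigF i (k y) = k (tauF j y))

include hk hW h

omit hk in
lemma rowne (y : Z4) (j : J4) : ∃ i, sigF i (k y) = k (tauF j y) := by
  by_contra hcon
  push Not at hcon
  have h0 : ∀ i, W y j i = 0 := by
    intro i
    by_contra hne
    exact hcon i (h y j i hne)
  have h1 := congrArg (fun M => M j j) (hW y)
  simp [Matrix.mul_apply, h0] at h1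

omit hk in
lemma colne (y : Z4) (i : J4) : ∃ j, sigF i (k y) = k (tauF j y) := by
  by_contra hcon
  push Not at hcon
  have h0 : ∀ j, W y j i = 0 := by
    intro j
    by_contra hne
    exact hcon j (h y j i hne)
  have h2 : (W y).conjTranspose * W y = 1 := mul_eq_one_comm.1 (hW y)
  have h1 := congrArg (fun M => M i i) h2
  simp [Matrix.mul_apply, h0] at h1

omit hk hW h in
lemma two_coords (c : C4) : enc (Sum.inl 1) c ≠ enc (Sum.inr (∅, ∅)) c := by
  intro h
  have := (enc_inj h).1
  simp at this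

lemma k_inr (t : unitInterval) : ∃ t', k (Sum.inr t) = Sum.inr t' := by
  rcases hc : k (Sum.inr t) with c | t'
  swap
  · exact ⟨t', rfl⟩
  exfalso
  obtain ⟨j0, h0⟩ := colne hW h (Sum.inr t) (Sum.inl 0)
  obtain ⟨j1, h1⟩ := colne hW h (Sum.inr t) (Sum.inr (Sum.inl 1))
  obtain ⟨j2, h2⟩ := colne hW h (Sum.inr t) (Sum.inr (Sum.inr (∅, ∅)))
  rw [hc, tauF_inr] at h0 h1 h2
  have e0 : sigF (Sum.inl 0) (Sum.inl c) = Sum.inl _ := rfl
  have e1 : sigF (Sum.inr (Sum.inl 1)) (Sum.inl c) = Sum.inr (enc (Sum.inl 1) c) := rfl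
  have e2 : sigF (Sum.inr (Sum.inr (∅, ∅))) (Sum.inl c) = Sum.inr (enc (Sum.inr (∅, ∅)) c) := rfl
  rw [e0] at h0
  rw [e1] at h1
  rw [e2] at h2
  have n01 : j0.isLeft ≠ j1.isLeft := by
    intro he
    rw [he] at h0
    rw [← h0] at h1
    exact absurd h1 (by simp)
  have n02 : j0.isLeft ≠ j2.isLeft := by
    intro he
    rw [he] at h0
    rw [← h0] at h2
    exact absurd h2 (by simp)
  have n12 : j1.isLeft ≠ j2.isLeft := by
    intro he
    rw [he] at h1
    rw [← h1] at h2
    exact two_coords c (Sum.inr_injective h2).symm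
  revert n01 n02 n12
  cases j0.isLeft <;> cases j1.isLeft <;> cases j2.isLeft <;> simp

lemma k_inl (c : C4) : ∃ c', k (Sum.inl c) = Sum.inl c' := by
  rcases hc : k (Sum.inl c) with c' | t'
  · exact ⟨c', rfl⟩
  exfalso
  obtain ⟨i0, h0⟩ := rowne hW h (Sum.inl c) (Sum.inl 0)
  obtain ⟨i1, h1⟩ := rowne hW h (Sum.inl c) (Sum.inr (Sum.inl 1))
  obtain ⟨i2, h2⟩ := rowne hW h (Sum.inl c) (Sum.inr (Sum.inr (∅, ∅)))
  rw [hc, sigF_inr] at h0 h1 h2
  have e0 : tauF (Sum.inl 0) (Sum.inl c) = Sum.inl _ := rfl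
  have e1 : tauF (Sum.inr (Sum.inl 1)) (Sum.inl c) = Sum.inr (enc (Sum.inl 1) c) := rfl
  have e2 : tauF (Sum.inr (Sum.inr (∅, ∅))) (Sum.inl c) = Sum.inr (enc (Sum.inr (∅, ∅)) c) := rfl
  rw [e0] at h0
  rw [e1] at h1
  rw [e2] at h2
  have n01 : i0.isLeft ≠ i1.isLeft := by
    intro he
    rw [he] at h0
    rw [h0] at h1
    exact absurd (hk h1) (by simp)
  have n02 : i0.isLeft ≠ i2.isLeft := by
    intro he
    rw [he] at h0
    rw [h0] at h2
    exact absurd (hk h2) (by simp)
  have n12 : i1.isLeft ≠ i2.isLeft := by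
    intro he
    rw [he] at h1
    rw [h1] at h2
    exact two_coords c (Sum.inr_injective (hk h2))
  revert n01 n02 n12
  cases i0.isLeft <;> cases i1.isLeft <;> cases i2.isLeft <;> simp

lemma k_interval : ∀ t : unitInterval, k (Sum.inr t) = Sum.inr t := by
  choose κ hκ using k_inr hk hW h
  have inj : ∀ s t, κ s = κ t → s = t := by
    intro s t hst
    have : k (Sum.inr s) = k (Sum.inr t) := by rw [hκ, hκ, hst]
    exact Sum.inr_injective (hk this)
  have key1 : ∀ t, κ (half t) = half (κ t) := by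
    intro t
    obtain ⟨i, hi⟩ := rowne hW h (Sum.inr t) (Sum.inl 0)
    rw [hκ, sigF_inr, tauF_inr] at hi
    simp only [Sum.isLeft_inl, if_true] at hi
    rw [hκ] at hi
    have hi' := Sum.inr_injective hi
    by_cases hl : i.isLeft
    · rw [if_pos hl] at hi'
      exact hi'.symm
    · exfalso
      rw [if_neg hl] at hi'
      refine no_off (W (Sum.inr t)) (hW _) ?_ ?_
      · intro a b
        by_contra hne
        have h1 := h _ _ _ hne
        rw [hκ, sigF_inr, tauF_inr] at h1
        simp only [Sum.isLeft_inl, if_true] at h1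
        rw [hκ] at h1
        have h2 := Sum.inr_injective h1
        rw [← hi'] at h2
        exact half_ne_uhalf _ h2
      · intro a b
        by_contra hne
        have h1 := h _ _ _ hne
        rw [hκ, sigF_inr, tauF_inr] at h1
        simp only [Sum.isLeft_inr, Bool.false_eq_true, if_false] at h1
        rw [hκ] at h1
        have h2 := Sum.inr_injective h1
        rw [hi'] at h2
        exact half_ne_uhalf _ (inj _ _ h2)
  have key2 : ∀ t, κ (uhalf t) = uhalf (κ t) := by
    intro t
    obtain ⟨i, hi⟩ := rowne hW h (Sum.inr t) (Sum.inr (Sum.inl 1))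
    rw [hκ, sigF_inr, tauF_inr] at hi
    simp only [Sum.isLeft_inr, Bool.false_eq_true, if_false] at hi
    rw [hκ] at hi
    have hi' := Sum.inr_injective hi
    by_cases hl : i.isLeft
    · rw [if_pos hl, ← key1] at hi'
      exact absurd (inj _ _ hi') (half_ne_uhalf t)
    · rw [if_neg hl] at hi'
      exact hi'.symm
  have key3 : ∀ (n : ℕ) (t : unitInterval), |(κ t : ℝ) - t| ≤ (1 / 2) ^ n := by
    intro n
    induction n with
    | zero =>
      intro t
      have a1 := (κ t).2.1
      have a2 := (κ t).2.2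
      have b1 := t.2.1
      have b2 := t.2.2
      rw [pow_zero, abs_le]
      constructor <;> linarith
    | succ n ih =>
      intro t
      by_cases ht : (t : ℝ) ≤ 1 / 2
      · let s : unitInterval := ⟨2 * t, by have := t.2.1; positivity, by linarith⟩
        have hs : half s = t := Subtype.ext (by change 2 * (t : ℝ) / 2 = t; ring)
        have h1 := key1 s
        rw [hs] at h1
        have h2 : (κ t : ℝ) = κ s / 2 := by rw [h1]; rfl
        have h3 : (t : ℝ) = s / 2 := by rw [← hs]; rfl
        have h4 := ih s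
        rw [h2, h3, ← sub_div, abs_div, pow_succ]
        have : |(2 : ℝ)| = 2 := by norm_num
        rw [this]
        linarith
      · push Not at ht
        let s : unitInterval := ⟨2 * t - 1, by linarith, by have := t.2.2; linarith⟩
        have hs : uhalf s = t := Subtype.ext (by change (1 + (2 * (t : ℝ) - 1)) / 2 = t; ring)
        have h1 := key2 s
        rw [hs] at h1
        have h2 : (κ t : ℝ) = (1 + κ s) / 2 := by rw [h1]; rfl
        have h3 : (t : ℝ) = (1 + s) / 2 := by rw [← hs]; rfl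
        have h4 := ih s
        rw [h2, h3, ← sub_div, abs_div, pow_succ, add_sub_add_left_eq_sub]
        have : |(2 : ℝ)| = 2 := by norm_num
        rw [this]
        linarith
  intro t
  rw [hκ]
  congr 1
  apply Subtype.ext
  have h1 : |(κ t : ℝ) - t| ≤ 0 := by
    have hl : Filter.Tendsto (fun n : ℕ => (1 / 2 : ℝ) ^ n) Filter.atTop (nhds 0) :=
      tendsto_pow_atTop_nhds_zero_of_lt_one (by norm_num) (by norm_num)
    exact ge_of_tendsto' hl fun n => key3 n t
  have h2 := abs_nonpos_iff.1 h1
  linarith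

lemma k_simplex (c : C4) : k (Sum.inl c) = Sum.inl c := by
  obtain ⟨c', hc⟩ := k_inl hk hW h c
  rw [hc]
  congr 1
  have key : ∀ m, crd m c' = crd m c := by
    intro m
    obtain ⟨i, hi⟩ := rowne hW h (Sum.inl c) (Sum.inr m)
    have e1 : tauF (Sum.inr m) (Sum.inl c) = Sum.inr (enc m c) := rfl
    rw [hc, e1, k_interval hk hW h] at hi
    rcases i with i | m'
    · have : sigF (Sum.inl i) (Sum.inl c') = Sum.inl _ := rfl
      rw [this] at hi
      exact absurd hi (by simp)
    · have : sigF (Sum.inr m') (Sum.inl c') = Sum.inr (enc m' c') := rfl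
      rw [this] at hi
      obtain ⟨h1, h2⟩ := enc_inj (Sum.inr_injective hi)
      rw [h1] at h2
      exact h2
  refine Prod.ext (Subtype.ext ?_) ?_
  · funext π
    exact key (Sum.inl π)
  · funext q
    exact Subtype.ext (key (Sum.inr q))

lemma k_id (z : Z4) : k z = z := by
  rcases z with c | t
  · exact k_simplex hk hW h c
  · exact k_interval hk hW h t

end

open Classical in
/-- the main block along the simplex -/
noncomputable def blk (W : Z4 → Matrix J4 J4 ℂ) (x : E4) : Matrix (Fin 4) (Fin 4) ℂ :=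
  if hx : x ∈ stdSimplex ℝ P4 then
    (W (Sum.inl (⟨x, hx⟩, fun _ => 0))).submatrix Sum.inl Sum.inl
  else 0

theorem no_equiv : ¬ UnitarilyEquivalent sig tau := by
  classical
  intro hU
  obtain ⟨k, W, hk, hWc, hW, h0⟩ := extract hU
  have h : ∀ y j i, W y j i ≠ 0 → sigF i (k y) = k (tauF j y) := h0
  have hid := k_id hk hW h
  have h' : ∀ y j i, W y j i ≠ 0 → sigF i y = tauF j y := by
    intro y j i hne
    have := h y j i hne
    rwa [hid, hid] at this
  refine not_good (V := blk W) ⟨?_, ?_, ?_⟩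
  · rw [continuousOn_iff_continuous_domRestrict]
    have e : (stdSimplex ℝ P4).domRestrict (blk W) =
        fun x => (W (Sum.inl (x, fun _ => 0))).submatrix Sum.inl Sum.inl := by
      funext x
      change blk W x.1 = _
      simp only [blk, x.2, dif_pos]
    rw [e]
    have h1 : Continuous fun x : stdSimplex ℝ P4 => (Sum.inl (x, fun _ => 0) : Z4) :=
      continuous_inl.comp (continuous_id.prodMk continuous_const)
    exact (hWc.comp h1).matrix_submatrix _ _
  · intro x hx
    have e : blk W x = (W (Sum.inl (⟨x, hx⟩, fun _ => 0))).submatrix Sum.inl Sum.inl := by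
      simp only [blk, hx, dif_pos]
    rw [e]
    set y : Z4 := Sum.inl (⟨x, hx⟩, fun _ => 0) with hy
    have hz : ∀ (i : Fin 4) (m : M4), W y (Sum.inl i) (Sum.inr m) = 0 := by
      intro i m
      by_contra hne
      have h1 := h' _ _ _ hne
      have e1 : sigF (Sum.inr m) y = Sum.inr _ := rfl
      have e2 : tauF (Sum.inl i) y = Sum.inl _ := rfl
      rw [e1, e2] at h1
      exact absurd h1 (by simp)
    ext i j
    have h2 := congrArg (fun M => M (Sum.inl i) (Sum.inl j)) (hW y)
    simp only [Matrix.mul_apply, Fintype.sum_sum_type, Matrix.conjTranspose_apply, hz,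
      zero_mul, Finset.sum_const_zero, add_zero] at h2
    rw [Matrix.mul_apply]
    simp only [Matrix.submatrix_apply, Matrix.conjTranspose_apply]
    rw [h2, Matrix.one_apply, Matrix.one_apply]
    simp
  · intro A B x hx i j hij
    have e : blk W x = (W (Sum.inl (⟨x, hx.1⟩, fun _ => 0))).submatrix Sum.inl Sum.inl := by
      simp only [blk, hx.1, dif_pos]
    rw [e, Matrix.submatrix_apply]
    by_contra hne
    have h1 := h' _ _ _ hne
    have h2 := Sum.inl_injective (β := unitInterval) h1
    have h3 := congrFun (congrArg Prod.snd h2) (A, B)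
    have h4 : (if j ∈ B then gap (A, B) ⟨x, hx.1⟩ else 0) =
        if i ∈ A then gap (A, B) ⟨x, hx.1⟩ else 0 := h3
    have h5 : gap (A, B) ⟨x, hx.1⟩ ≠ 0 := by
      intro h6
      have h7 := congrArg Subtype.val h6
      change max 0 (1 / 25 - outw (A, B) x) = 0 at h7
      have h8 : outw (A, B) x = 0 := by
        unfold outw
        refine Finset.sum_eq_zero fun π _ => ?_
        split_ifs with h9
        · rfl
        · exact hx.2 π h9
      rw [h8] at h7
      norm_num at h7
    apply hij
    by_cases ha : i ∈ A <;> by_cases hb : j ∈ B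
    · simp [ha, hb]
    · rw [if_neg hb, if_pos ha] at h4
      exact absurd h4.symm h5
    · rw [if_pos hb, if_neg ha] at h4
      exact absurd h4 h5
    · simp [ha, hb]

/-! ### passing to `Fin n` -/

section reindex

variable {ι κ : Type*} [Fintype ι] [Fintype κ] {X Y : Type*} [TopologicalSpace X]
  [TopologicalSpace Y]

omit [Fintype ι] [Fintype κ] in
lemma PiecewiseConjugate.reindex {σ : ι → CocompactMap X X} {τ : ι → CocompactMap Y Y}
    (e : κ ≃ ι) (h : PiecewiseConjugate σ τ) :
    PiecewiseConjugate (fun a => σ (e a)) (fun a => τ (e a)) := by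
  obtain ⟨γ, U, hU, hcov, hc⟩ := h
  refine ⟨γ, fun π => U ((e.symm.trans π).trans e), fun π => hU _, ?_, ?_⟩
  · rw [Set.eq_univ_iff_forall] at hcov ⊢
    intro x
    obtain ⟨π, hπ⟩ := Set.mem_iUnion.1 (hcov x)
    refine Set.mem_iUnion.2 ⟨(e.trans π).trans e.symm, ?_⟩
    have : (e.symm.trans ((e.trans π).trans e.symm)).trans e = π := by
      ext i; simp
    rw [this]
    exact hπ
  · intro π a x hx
    have := hc _ (e a) x hx
    simpa using this

lemma UnitarilyEquivalent.of_reindex {σ : ι → CocompactMap X X} {τ : ι → CocompactMap Y Y}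
    (e : κ ≃ ι) (h : UnitarilyEquivalent (fun a => σ (e a)) (fun a => τ (e a))) :
    UnitarilyEquivalent σ τ := by
  obtain ⟨ρ, U, hU, hin, hact⟩ := h
  let F : (ι → C₀(X, ℂ)) ≃ₗ[ℂ] (κ → C₀(X, ℂ)) := LinearEquiv.funCongrLeft ℂ _ e
  let G : (ι → C₀(Y, ℂ)) ≃ₗ[ℂ] (κ → C₀(Y, ℂ)) := LinearEquiv.funCongrLeft ℂ _ e
  have hF : ∀ ξ η, innerC (F ξ) (F η) = innerC ξ η := by
    intro ξ η
    exact Equiv.sum_comp e (fun i => star (ξ i) * η i)
  have hG : ∀ ξ η, innerC (G ξ) (G η) = innerC ξ η := by
    intro ξ η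
    exact Equiv.sum_comp e (fun i => star (ξ i) * η i)
  refine ⟨ρ, (G.symm.toLinearMap.comp U).comp F.toLinearMap, ?_, ?_, ?_⟩
  · exact (G.symm.surjective.comp hU).comp F.surjective
  · intro ξ η
    change innerC (G.symm (U (F ξ))) (G.symm (U (F η))) = _
    rw [← hG, LinearEquiv.apply_symm_apply, LinearEquiv.apply_symm_apply, hin, hF]
  · intro a ξ
    change G.symm (U (F (leftAct σ a ξ))) = leftAct τ (ρ a) (G.symm (U (F ξ)))
    have h1 : F (leftAct σ a ξ) = leftAct (fun a => σ (e a)) a (F ξ) := rfl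
    rw [h1, hact, LinearEquiv.symm_apply_eq]
    have h2 : G (leftAct τ (ρ a) (G.symm (U (F ξ)))) =
        leftAct (fun a => τ (e a)) (ρ a) (G (G.symm (U (F ξ)))) := rfl
    rw [h2, LinearEquiv.apply_symm_apply]

end reindex

/-- numbering of the index set -/
noncomputable def e4 : Fin (Fintype.card J4) ≃ J4 := (Fintype.equivFin J4).symm

end Q88.Piece
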