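import Pool.Agent.Q88.Piece.Main
import Pool.Agent.Q88.Piece.Extract

/-! # The two systems -/

open scoped ZeroAtInfty

namespace Q88.Piece

open Equiv

/-- pairs of sets of letters -/
abbrev K4 := Finset (Fin 4) × Finset (Fin 4)

/-- the simplex times a cube -/
abbrev C4 := (stdSimplex ℝ P4) × (K4 → unitInterval)

/-- the space -/
abbrev Z4 := C4 ⊕ unitInterval

/-- the coordinates of `C4` -/
abbrev M4 := P4 ⊕ K4

/-- the index set -/
abbrev J4 := Fin 4 ⊕ M4

/-- the weight outside of the permutations mapping `A` to `B` -/
def outw (k : K4) (x : E4) : ℝ := ∑ π : P4, if k.1.image π = k.2 then 0 else x π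

lemma outw_nonneg (k : K4) {x : E4} (hx : x ∈ stdSimplex ℝ P4) : 0 ≤ outw k x := by
  refine Finset.sum_nonneg fun π _ => ?_
  split_ifs
  · exact le_rfl
  · exact hx.1 π

lemma continuous_outw (k : K4) : Continuous (outw k) := by
  unfold outw
  refine continuous_finsetSum _ fun π _ => ?_
  split_ifs
  · exact continuous_const
  · exact continuous_apply π

/-- the gap function of a pair -/
noncomputable def gap (k : K4) (x : stdSimplex ℝ P4) : unitInterval :=
  ⟨max 0 (1 / 25 - outw k x.1), le_max_left _ _, max_le zero_le_one (by
    have := outw_nonneg k x.2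
    linarith)⟩

lemma continuous_gap (k : K4) : Continuous (gap k) := by
  refine Continuous.subtype_mk ?_ _
  exact continuous_const.max (continuous_const.sub ((continuous_outw k).comp continuous_subtype_val))

/-- halving -/
noncomputable def half (t : unitInterval) : unitInterval :=
  ⟨t / 2, by have := t.2.1; positivity, by have := t.2.2; linarith⟩

/-- upper half -/
noncomputable def uhalf (t : unitInterval) : unitInterval :=
  ⟨(1 + t) / 2, by have := t.2.1; positivity, by have := t.2.2; linarith⟩

/-- coordinates -/
def crd (m : M4) (c : C4) : ℝ := match m with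
  | Sum.inl π => c.1.1 π
  | Sum.inr k => c.2 k

lemma crd_nonneg (m : M4) (c : C4) : 0 ≤ crd m c := by
  cases m with
  | inl π => exact c.1.2.1 π
  | inr k => exact (c.2 k).2.1

lemma crd_le (m : M4) (c : C4) : crd m c ≤ 1 := by
  cases m with
  | inl π =>
    have := Finset.single_le_sum (f := c.1.1) (fun π _ => c.1.2.1 π) (Finset.mem_univ π)
    rw [c.1.2.2] at this
    exact this
  | inr k => exact (c.2 k).2.2

lemma continuous_crd (m : M4) : Continuous (crd m) := by
  cases m with
  | inl π => exact (continuous_apply π).comp (continuous_subtype_val.comp continuous_fst)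
  | inr k => exact continuous_subtype_val.comp ((continuous_apply k).comp continuous_snd)

/-- number of coordinates -/
noncomputable def N4 : ℕ := Fintype.card M4

/-- numbering of the coordinates -/
noncomputable def num (m : M4) : ℕ := (Fintype.equivFin M4 m : ℕ)

lemma num_lt (m : M4) : num m + 1 ≤ N4 := (Fintype.equivFin M4 m).2

lemma num_inj {m m' : M4} (h : num m = num m') : m = m' :=
  (Fintype.equivFin M4).injective (Fin.ext h)

/-- encoding of a coordinate in the interval -/
noncomputable def enc (m : M4) (c : C4) : unitInterval :=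
  ⟨(2 * num m + crd m c) / (2 * N4), by
    have := crd_nonneg m c
    positivity, by
    have h1 := crd_le m c
    have h2 : (num m : ℝ) + 1 ≤ N4 := by exact_mod_cast num_lt m
    have h3 : (0 : ℝ) < 2 * N4 := by
      have : (0 : ℝ) ≤ num m := by positivity
      linarith
    rw [div_le_one h3]
    linarith⟩

lemma continuous_enc (m : M4) : Continuous (enc m) := by
  refine Continuous.subtype_mk ?_ _
  exact (continuous_const.add (continuous_crd m)).div_const _

lemma enc_inj {m m' : M4} {c c' : C4} (h : enc m c = enc m' c') :
    m = m' ∧ crd m c = crd m' c' := by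
  have h1 := congrArg Subtype.val h
  change (2 * (num m : ℝ) + crd m c) / (2 * N4) = (2 * (num m' : ℝ) + crd m' c') / (2 * N4) at h1
  have h2 : (num m : ℝ) + 1 ≤ N4 := by exact_mod_cast num_lt m
  have h3 : (2 * (N4 : ℝ)) ≠ 0 := by
    have : (0 : ℝ) ≤ num m := by positivity
    have : (0 : ℝ) < 2 * N4 := by linarith
    exact this.ne'
  rw [div_left_inj' h3] at h1
  have a1 := crd_nonneg m c
  have a2 := crd_le m c
  have b1 := crd_nonneg m' c'
  have b2 := crd_le m' c'
  have h4 : num m = num m' := by
    have e1 : (2 * (num m : ℝ) ≤ 2 * num m' + 1) := by linarith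
    have e2 : (2 * (num m' : ℝ) ≤ 2 * num m + 1) := by linarith
    have e3 : 2 * num m ≤ 2 * num m' + 1 := by exact_mod_cast e1
    have e4 : 2 * num m' ≤ 2 * num m + 1 := by exact_mod_cast e2
    omega
  refine ⟨num_inj h4, ?_⟩
  rw [h4] at h1
  linarith

/-- the first system, as maps -/
noncomputable def sigF (j : J4) : Z4 → Z4 := match j with
  | Sum.inl i => Sum.map (fun c => (c.1, fun k => if i ∈ k.2 then gap k c.1 else 0)) half
  | Sum.inr m => Sum.elim (fun c => Sum.inr (enc m c)) (fun t => Sum.inr (uhalf t))

/-- the second system, as maps -/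
noncomputable def tauF (j : J4) : Z4 → Z4 := match j with
  | Sum.inl i => Sum.map (fun c => (c.1, fun k => if i ∈ k.1 then gap k c.1 else 0)) half
  | Sum.inr m => Sum.elim (fun c => Sum.inr (enc m c)) (fun t => Sum.inr (uhalf t))

lemma continuous_half : Continuous half :=
  Continuous.subtype_mk (continuous_subtype_val.div_const _) _

lemma continuous_uhalf : Continuous uhalf :=
  Continuous.subtype_mk ((continuous_const.add continuous_subtype_val).div_const _) _

lemma continuous_sigF (j : J4) : Continuous (sigF j) := by
  cases j with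
  | inl i =>
    refine Continuous.sumMap ?_ continuous_half
    refine continuous_fst.prodMk (continuous_pi fun k => ?_)
    split_ifs
    · exact (continuous_gap k).comp continuous_fst
    · exact continuous_const
  | inr m =>
    exact (continuous_inr.comp (continuous_enc m)).sumElim (continuous_inr.comp continuous_uhalf)

lemma continuous_tauF (j : J4) : Continuous (tauF j) := by
  cases j with
  | inl i =>
    refine Continuous.sumMap ?_ continuous_half
    refine continuous_fst.prodMk (continuous_pi fun k => ?_)
    split_ifs
    · exact (continuous_gap k).comp continuous_fst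
    · exact continuous_const
  | inr m =>
    exact (continuous_inr.comp (continuous_enc m)).sumElim (continuous_inr.comp continuous_uhalf)

/-- the first system -/
noncomputable def sig (j : J4) : CocompactMap Z4 Z4 :=
  ⟨⟨sigF j, continuous_sigF j⟩, by simp [Filter.cocompact_eq_bot]⟩

/-- the second system -/
noncomputable def tau (j : J4) : CocompactMap Z4 Z4 :=
  ⟨⟨tauF j, continuous_tauF j⟩, by simp [Filter.cocompact_eq_bot]⟩

lemma exists_big (x : stdSimplex ℝ P4) : ∃ π, 1 / 25 < x.1 π := by
  by_contra hcon
  push Not at hcon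
  have h1 : ∑ π, x.1 π ≤ ∑ _π : P4, (1 / 25 : ℝ) := Finset.sum_le_sum fun π _ => hcon π
  rw [x.2.2] at h1
  rw [Finset.sum_const, Finset.card_univ, Fintype.card_perm] at h1
  norm_num [Nat.factorial] at h1

lemma gap_zero {k : K4} {x : stdSimplex ℝ P4} {π : P4} (hπ : 1 / 25 < x.1 π)
    (hk : k.1.image π ≠ k.2) : gap k x = 0 := by
  apply Subtype.ext
  change max 0 (1 / 25 - outw k x.1) = 0
  rw [max_eq_left]
  have h1 : x.1 π ≤ outw k x.1 := by
    unfold outw
    have := Finset.single_le_sum (f := fun π : P4 => if k.1.image π = k.2 then 0 else x.1 π)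
      (fun π _ => by split_ifs; exacts [le_rfl, x.2.1 π]) (Finset.mem_univ π)
    simpa [hk] using this
  linarith

/-- the open pieces -/
def pc (π : P4) : Set Z4 := {z | Sum.elim (fun c : C4 => 1 / 25 < c.1.1 π) (fun _ => True) z}

lemma isOpen_pc (π : P4) : IsOpen (pc π) := by
  rw [isOpen_sum_iff]
  constructor
  · have h : Continuous fun c : C4 => c.1.1 π :=
      (continuous_apply π).comp (continuous_subtype_val.comp continuous_fst)
    exact isOpen_lt continuous_const h
  · exact isOpen_univ

theorem piecewise : PiecewiseConjugate sig tau := by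
  refine ⟨Homeomorph.refl Z4, fun θ => ⋃ (π : P4) (_ : θ = Equiv.sumCongr π (Equiv.refl M4)), pc π,
    ?_, ?_, ?_⟩
  · intro θ
    exact isOpen_iUnion fun π => isOpen_iUnion fun _ => isOpen_pc π
  · rw [Set.eq_univ_iff_forall]
    rintro (c | t)
    · obtain ⟨π, hπ⟩ := exists_big c.1
      refine Set.mem_iUnion.2 ⟨Equiv.sumCongr π (Equiv.refl M4), ?_⟩
      exact Set.mem_iUnion.2 ⟨π, Set.mem_iUnion.2 ⟨rfl, hπ⟩⟩
    · refine Set.mem_iUnion.2 ⟨Equiv.sumCongr 1 (Equiv.refl M4), ?_⟩
      exact Set.mem_iUnion.2 ⟨1, Set.mem_iUnion.2 ⟨rfl, trivial⟩⟩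
  · intro θ j z hz
    simp only [Set.mem_iUnion] at hz
    obtain ⟨π, rfl, hz⟩ := hz
    change tauF j z = sigF (Equiv.sumCongr π (Equiv.refl M4) j) z
    rcases j with i | m
    · rcases z with c | t
      · change (Sum.inl _ : Z4) = Sum.inl _
        congr 1
        refine Prod.ext rfl ?_
        funext k
        change (if i ∈ k.1 then gap k c.1 else 0) = if π i ∈ k.2 then gap k c.1 else 0
        by_cases hk : k.1.image π = k.2
        · have : i ∈ k.1 ↔ π i ∈ k.2 := by
            rw [← hk, Finset.mem_image]
            constructor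
            · intro h; exact ⟨i, h, rfl⟩
            · rintro ⟨i', h, he⟩
              rwa [← π.injective he]
          simp only [this]
        · rw [gap_zero hz hk]
          simp
      · rfl
    · rcases z with c | t
      · rfl
      · rfl

end Q88.Piece
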